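import Pool.Agent.H72R3.II.FIN
import Pool.Agent.H72R3.II.NAC
import Pool.Agent.H72R3.II.CRIT
import Pool.Agent.H72R3.II.LET
import Pool.Agent.H72R3.II.MERGE
import Pool.Agent.H72R3.II.NA
import Pool.Agent.H72R3.II.NE
import Pool.Agent.H72R3.II.NF
import Pool.Agent.H72R3.II.REP
import Pool.Agent.H72R3.II.DEP
import Pool.Agent.H72R3.II.KEY
import Pool.Agent.H72R3.II.PA
import Pool.Agent.H72R3.II.PB
import Pool.Agent.H72R3.II.PC
import Pool.Agent.H72R3.II.PERIOD
import Pool.Agent.H72R3.II.COM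
import Pool.Agent.H72R3.II.EXB

/-!
# MP_b02441_al: commutative and nilpotent varieties

The finitely generated free semigroups of a commutative or nilpotent semigroup variety `V` are
separated by identical inclusions, unless `V` is the variety of all commutative semigroups, or
trivial, or nilpotent of class `c + 2` with `x ^ (c + 1) ≠ 0`.
-/

set_option autoImplicit false

namespace Pool.Agent.Results.MP_b02441_al.CommutativeOrNilpotent

open Pool.Agent.H72R3.II

theorem result (E : Set (FreeSemigroup ℕ × FreeSemigroup ℕ))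
    (h : CommV E ∨ ∃ c : ℕ, Nilp E c) :
    Separated E ↔ NotAllComm E ∧ ¬ Exceptional E := by
  have hfin : S_FIN := FIN_ok SUB_ok CRIT_ok (NIL_ok (NA_ok LET_ok MERGE_ok) (NE_ok LET_ok) NF_ok
    N0_ok) (KEY_ok REP_ok REAL_ok) (PA_ok DEP_ok) (PB_ok DEP_ok) (PC_ok REP_ok) (PERIOD_ok REP_ok)
    (COM_ok REP_ok) EXA_ok EXB_ok
  rcases h with h | ⟨c, h⟩
  · exact hfin.2.1 E h
  · exact ⟨fun hs => ⟨NAC_ok E c h, (hfin.2.2 E c h).1 hs⟩, fun hs => (hfin.2.2 E c h).2 hs.2⟩

end Pool.Agent.Results.MP_b02441_al.CommutativeOrNilpotent
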