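import Pool.Agent.H72R3.II.CRIT

/-!
# MP_b02441_al: a criterion for all semigroup varieties

For every semigroup variety `V` and `1 ≤ m ≤ n` the free semigroups `F_m(V)` and `F_n(V)` satisfy
the same identical inclusions if and only if every element of `F_n(V)` is isolated by some
homomorphism to `F_m(V)`.
-/

set_option autoImplicit false

namespace Pool.Agent.Results.MP_b02441_al.IsolationCriterion

open Pool.Agent.H72R3.II

theorem result (E : Set (FreeSemigroup ℕ × FreeSemigroup ℕ)) (m n : ℕ) (hm : 1 ≤ m)
    (hmn : m ≤ n) :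
    InclEquiv (F E m) (F E n) ↔
      ∀ g : F E n, ∃ T : F E n →ₙ* F E m, ∀ h : F E n, T h = T g → h = g :=
  CRIT_ok E m n hm hmn

end Pool.Agent.Results.MP_b02441_al.IsolationCriterion
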